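import Pool.Agent.helper40.SU.SpecA

set_option autoImplicit false

open Finset

namespace Pool.Agent.SU

lemma CNT_fix (p : ℕ) [Fact p.Prime] (K : Type) [Field K] [Algebra (ZMod p) K] (y : K) (hy : y ^ p = y) :
    ∃ a : ZMod p, algebraMap (ZMod p) K a = y := by
  classical
  have hp : p.Prime := Fact.out
  set P : Polynomial K := Polynomial.X ^ p - Polynomial.X with hP
  have hP0 : P ≠ 0 := FiniteField.X_pow_card_sub_X_ne_zero K hp.one_lt
  have hdeg : P.natDegree = p := FiniteField.X_pow_card_sub_X_natDegree_eq K hp.one_lt
  have hroot : ∀ x : K, x ∈ P.roots.toFinset ↔ x ^ p = x := by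
    intro x
    rw [Multiset.mem_toFinset, Polynomial.mem_roots hP0, Polynomial.IsRoot.def, hP]
    simp [sub_eq_zero]
  have hinj : Function.Injective (algebraMap (ZMod p) K) := (algebraMap (ZMod p) K).injective
  have hsub : (univ : Finset (ZMod p)).image (algebraMap (ZMod p) K) ⊆ P.roots.toFinset := by
    intro x hx
    obtain ⟨a, -, rfl⟩ := mem_image.1 hx
    rw [hroot, ← map_pow, ZMod.pow_card]
  have hcard : P.roots.toFinset.card ≤ ((univ : Finset (ZMod p)).image (algebraMap (ZMod p) K)).card := by
    rw [card_image_of_injective _ hinj, card_univ, ZMod.card]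
    exact (Multiset.toFinset_card_le _).trans ((Polynomial.card_roots' _).trans hdeg.le)
  have heq := eq_of_subset_of_card_le hsub hcard
  have : y ∈ P.roots.toFinset := (hroot y).2 hy
  rw [← heq] at this
  obtain ⟨a, -, ha⟩ := mem_image.1 this
  exact ⟨a, ha⟩

theorem CNT : CNT_stmt := by
  intro p _ K _ _ _ _ hp2 hcard s t
  have hp : p.Prime := Fact.out
  have hodd : p % 2 = 1 := (hp.eq_two_or_odd).resolve_left hp2
  have hinj : Function.Injective (algebraMap (ZMod p) K) := (algebraMap (ZMod p) K).injective
  have hchar : CharP K p := charP_of_injective_algebraMap hinj p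
  set φ := algebraMap (ZMod p) K with hφ
  have hφp : ∀ a : ZMod p, φ a ^ p = φ a := fun a => by rw [← map_pow, ZMod.pow_card]
  have h2 : (2 : ZMod p) ≠ 0 := by
    intro h
    have h3 : ((2 : ℕ) : ZMod p) = 0 := by exact_mod_cast h
    rw [ZMod.natCast_eq_zero_iff] at h3
    exact hp2 ((Nat.prime_dvd_prime_iff_eq hp Nat.prime_two).1 h3)
  have h2K : (2 : K) ≠ 0 := by
    intro h
    apply h2
    apply hinj
    rw [map_ofNat, map_zero]
    exact h
  -- every solution satisfies the quadratic equation
  have hquad : ∀ x : K, x + x ^ p = φ s → x ^ (p + 1) = φ t → (2 * x - φ s) ^ 2 = φ (s ^ 2 - 4 * t) := by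
    intro x h1 h3
    rw [map_sub, map_mul, map_pow, ← h3, ← h1, map_ofNat]
    ring
  by_cases hΔ : s ^ 2 - 4 * t = 0
  · -- one solution
    rw [hΔ, quadraticChar_zero, sub_zero]
    have : univ.filter (fun x : K => x + x ^ p = φ s ∧ x ^ (p + 1) = φ t) = {φ (s / 2)} := by
      ext x
      rw [mem_filter, mem_singleton]
      constructor
      · rintro ⟨-, h1, h3⟩
        have h4 := hquad x h1 h3
        rw [hΔ, map_zero] at h4
        have h5 : 2 * x - φ s = 0 := pow_eq_zero_iff (two_ne_zero) |>.1 h4
        rw [map_div₀, map_ofNat]
        field_simp
        linear_combination h5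
      · rintro rfl
        refine ⟨mem_univ _, ?_, ?_⟩
        · rw [hφp, ← map_add]
          congr 1
          field_simp
          ring
        · rw [pow_succ, hφp, ← map_mul]
          congr 1
          field_simp
          linear_combination hΔ
    rw [this, card_singleton]
    norm_num
  · by_cases hsq : IsSquare (s ^ 2 - 4 * t)
    · rw [quadraticChar_one_iff_isSquare hΔ |>.2 hsq]
      obtain ⟨δ, hδ⟩ := hsq
      have hδ0 : δ ≠ 0 := by
        rintro rfl
        apply hΔ
        rw [hδ, mul_zero]
      have : univ.filter (fun x : K => x + x ^ p = φ s ∧ x ^ (p + 1) = φ t) = ∅ := by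
        rw [filter_eq_empty_iff]
        rintro x - ⟨h1, h3⟩
        have h4 := hquad x h1 h3
        rw [hδ, map_mul] at h4
        have h5 : (2 * x - φ s - φ δ) * (2 * x - φ s + φ δ) = 0 := by linear_combination h4
        have h6 : ∃ a : ZMod p, x = φ a := by
          rcases mul_eq_zero.1 h5 with h | h
          · refine ⟨(s + δ) / 2, ?_⟩
            rw [map_div₀, map_add, map_ofNat]
            field_simp
            linear_combination h
          · refine ⟨(s - δ) / 2, ?_⟩
            rw [map_div₀, map_sub, map_ofNat]
            field_simp
            linear_combination h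
        obtain ⟨a, rfl⟩ := h6
        rw [hφp] at h1
        have h7 : φ δ = 0 := by
          rcases mul_eq_zero.1 h5 with h | h
          · linear_combination -h + h1
          · linear_combination h - h1
        apply hδ0
        apply hinj
        rw [h7, map_zero]
      rw [this, card_empty]
      norm_num
    · rw [quadraticChar_neg_one_iff_not_isSquare.2 hsq]
      have hringK : ringChar K ≠ 2 := by
        rw [ringChar.eq K p]
        exact hp2
      have hΔK : φ (s ^ 2 - 4 * t) ≠ 0 := by
        intro h
        apply hΔ
        apply hinj
        rw [h, map_zero]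
      have hsqK : IsSquare (φ (s ^ 2 - 4 * t)) := by
        rw [FiniteField.isSquare_iff hringK hΔK, hcard]
        obtain ⟨k, hk⟩ : ∃ k, p = 2 * k + 1 := ⟨p / 2, by omega⟩
        have h3 : p ^ 2 / 2 = (p - 1) * (k + 1) := by
          rw [hk]
          have : (2 * k + 1) ^ 2 = 2 * (2 * k * (k + 1)) + 1 := by ring
          rw [this]
          have h4 : 2 * k + 1 - 1 = 2 * k := by omega
          rw [h4]
          omega
        rw [h3, pow_mul, ← map_pow, ZMod.pow_card_sub_one_eq_one hΔ, map_one, one_pow]
      obtain ⟨d, hd⟩ := hsqK
      have hd0 : d ≠ 0 := by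
        rintro rfl
        apply hΔK
        rw [hd, mul_zero]
      have hdp : d ^ p = -d := by
        have h3 : (d ^ p - d) * (d ^ p + d) = 0 := by
          have h4 : (d ^ p) * (d ^ p) = d * d := by
            rw [← mul_pow, ← hd, hφp, hd]
          linear_combination h4
        rcases mul_eq_zero.1 h3 with h | h
        · exfalso
          obtain ⟨a, ha⟩ := CNT_fix p K d (sub_eq_zero.1 h)
          apply hsq
          refine ⟨a, hinj ?_⟩
          rw [map_mul, ha, hd]
        · exact eq_neg_of_add_eq_zero_left h
      have h2p : (2 : K) ^ p = 2 := by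
        have := hφp 2
        rwa [map_ofNat] at this
      have hne : (φ s + d) / 2 ≠ (φ s - d) / 2 := by
        intro h
        apply hd0
        field_simp at h
        have h4 : 2 * d = 0 := by linear_combination h
        exact (mul_eq_zero.1 h4).resolve_left h2K
      have : univ.filter (fun x : K => x + x ^ p = φ s ∧ x ^ (p + 1) = φ t) = {(φ s + d) / 2, (φ s - d) / 2} := by
        ext x
        rw [mem_filter, mem_insert, mem_singleton]
        constructor
        · rintro ⟨-, h1, h3⟩
          have h4 := hquad x h1 h3
          rw [hd] at h4
          have h5 : (2 * x - φ s - d) * (2 * x - φ s + d) = 0 := by linear_combination h4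
          rcases mul_eq_zero.1 h5 with h | h
          · left
            field_simp
            linear_combination h
          · right
            field_simp
            linear_combination h
        · have hD : φ s ^ 2 - 4 * φ t = d * d := by
            rw [← hd, map_sub, map_mul, map_pow, map_ofNat]
          rintro (rfl | rfl)
          · have hx : ((φ s + d) / 2) ^ p = (φ s - d) / 2 := by
              rw [div_pow, add_pow_char, hφp, hdp, h2p]
              ring
            refine ⟨mem_univ _, ?_, ?_⟩
            · rw [hx]
              field_simp
              ring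
            · rw [pow_succ, hx]
              field_simp
              linear_combination hD
          · have hx : ((φ s - d) / 2) ^ p = (φ s + d) / 2 := by
              rw [div_pow, sub_pow_char, hφp, hdp, h2p]
              ring
            refine ⟨mem_univ _, ?_, ?_⟩
            · rw [hx]
              field_simp
              ring
            · rw [pow_succ, hx]
              field_simp
              linear_combination hD
      rw [this, card_pair hne]
      norm_num

end Pool.Agent.SU
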