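import Pool.Agent.helper40.SU.SpecA

set_option autoImplicit false

open Finset

namespace Pool.Agent.SU

lemma FUL_prod (hCR2 : CR2_stmt) (ψ : ℕ → ℕ → ℕ → ℤ) (S : Finset ℕ) (hS : ∀ p ∈ S, p.Prime)
    (hper : ∀ p ∈ S, ∀ x y x' y' : ℕ, x ≡ x' [MOD p] → y ≡ y' [MOD p] → ψ p x y = ψ p x' y') :
    ∑ x ∈ range (∏ p ∈ S, p), ∑ y ∈ range (∏ p ∈ S, p), ∏ p ∈ S, ψ p x y = ∏ p ∈ S, ∑ x ∈ range p, ∑ y ∈ range p, ψ p x y := by
  classical
  induction S using Finset.induction_on with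
  | empty => simp
  | insert a S ha ih =>
    have haP : a.Prime := hS a (mem_insert_self a S)
    have hSP : ∀ p ∈ S, p.Prime := fun p hp => hS p (mem_insert_of_mem hp)
    have ih' := ih hSP (fun p hp => hper p (mem_insert_of_mem hp))
    have hcop : a.Coprime (∏ p ∈ S, p) := Nat.Coprime.prod_right fun p hp =>
      (Nat.coprime_primes haP (hSP p hp)).2 (fun h => ha (h ▸ hp))
    have hpos : 1 ≤ ∏ p ∈ S, p := Nat.one_le_iff_ne_zero.2 (prod_ne_zero_iff.2 fun p hp => (hSP p hp).ne_zero)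
    rw [prod_insert ha, prod_insert ha, ← ih']
    have h := hCR2 a (∏ p ∈ S, p) (ψ a) (fun x y => ∏ p ∈ S, ψ p x y) haP.one_lt.le hpos hcop
      (hper a (mem_insert_self a S)) (fun x y x' y' hx hy => prod_congr rfl fun p hp =>
        hper p (mem_insert_of_mem hp) x y x' y' (hx.of_dvd (dvd_prod_of_mem _ hp)) (hy.of_dvd (dvd_prod_of_mem _ hp)))
    rw [← h]
    refine sum_congr rfl fun x _ => sum_congr rfl fun y _ => ?_
    rw [prod_insert ha]

lemma FUL_jac (a : ℤ) (S : Finset ℕ) (hS : ∀ p ∈ S, p.Prime) : jacobiSym a (∏ p ∈ S, p) = ∏ p ∈ S, jacobiSym a p := by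
  classical
  induction S using Finset.induction_on with
  | empty => simp
  | insert b S hb ih =>
    have hSP : ∀ p ∈ S, p.Prime := fun p hp => hS p (mem_insert_of_mem hp)
    rw [prod_insert hb, prod_insert hb, jacobiSym.mul_right' a (hS b (mem_insert_self b S)).ne_zero
      (prod_ne_zero_iff.2 fun p hp => (hSP p hp).ne_zero), ih hSP]

lemma FUL_sqrt (S : Finset ℕ) : √((∏ p ∈ S, p : ℕ) : ℝ) = ∏ p ∈ S, √(p : ℝ) := by
  classical
  induction S using Finset.induction_on with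
  | empty => simp
  | insert b S hb ih =>
    rw [prod_insert hb, prod_insert hb, ← ih, Nat.cast_mul, Real.sqrt_mul (Nat.cast_nonneg b)]

lemma FUL_df (m p x y x' y' : ℕ) (hx : x ≡ x' [MOD p]) (hy : y ≡ y' [MOD p]) :
    jacobiSym (Df m x y) p = jacobiSym (Df m x' y') p := by
  have h : Df m x y ≡ Df m x' y' [MOD p] := by
    unfold Df
    exact ((hx.pow 4).mul_left (m ^ 2 + 1)).add ((hy.mul ((hx.mul_left (m ^ 2)).add (hy.mul_left 420))).pow 2)
  apply jacobiSym.mod_left'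
  exact_mod_cast h

lemma FUL_abs (a : ℤ) (b : ℕ) : |jacobiSym a b| ≤ 1 := by
  rcases jacobiSym.trichotomy a b with h | h | h <;> rw [h] <;> norm_num

theorem FUL (hQRT : QRT_stmt) (hCR2 : CR2_stmt) : FUL_stmt := by
  classical
  intro Z m q u₀ k₀ hZ hD g g' hg hg' hgq hgq'
  set G := g.primeFactors with hG
  set G' := g'.primeFactors with hG'
  have hgP : ∀ p ∈ G, p.Prime := fun p hp => Nat.prime_of_mem_primeFactors hp
  have hgP' : ∀ p ∈ G', p.Prime := fun p hp => Nat.prime_of_mem_primeFactors hp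
  have hg0 : g ≠ 0 := hg.ne_zero
  have hg0' : g' ≠ 0 := hg'.ne_zero
  have hgprod : ∏ p ∈ G, p = g := Nat.prod_primeFactors_of_squarefree hg
  have hgprod' : ∏ p ∈ G', p = g' := Nat.prod_primeFactors_of_squarefree hg'
  have hgcdP : (g.gcd g').primeFactors = G ∩ G' := Nat.primeFactors_gcd hg0 hg0'
  have hgcd : ∏ p ∈ G ∩ G', p = g.gcd g' := by
    rw [← hgcdP]
    exact Nat.prod_primeFactors_of_squarefree (hg.squarefree_of_dvd (Nat.gcd_dvd_left g g'))
  have hgcd0 : 0 < g.gcd g' := Nat.gcd_pos_of_pos_left _ (Nat.pos_of_ne_zero hg0)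
  have hunion : ∏ p ∈ G ∪ G', p = g.lcm g' := by
    have h1 := prod_union_inter (s₁ := G) (s₂ := G') (f := fun p : ℕ => p)
    rw [hgcd, hgprod, hgprod', ← Nat.gcd_mul_lcm g g', mul_comm] at h1
    exact Nat.eq_of_mul_eq_mul_left hgcd0 h1
  set E := (G \ G') ∪ (G' \ G) with hE
  have hdisj : Disjoint (G \ G') (G' \ G) := disjoint_left.2 fun p hp hp' => (mem_sdiff.1 hp).2 (mem_sdiff.1 hp').1
  have h1 : ∏ p ∈ G \ G', p = g / g.gcd g' := by
    have : (∏ p ∈ G \ G', p) * (∏ p ∈ G ∩ G', p) = g := by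
      rw [← hgprod]
      conv_rhs => rw [← prod_sdiff (inter_subset_left : G ∩ G' ⊆ G)]
      rw [sdiff_inter_self_left]
    rw [hgcd] at this
    exact (Nat.div_eq_of_eq_mul_left hgcd0 this.symm).symm
  have h2 : ∏ p ∈ G' \ G, p = g' / g.gcd g' := by
    have : (∏ p ∈ G' \ G, p) * (∏ p ∈ G ∩ G', p) = g' := by
      rw [← hgprod']
      conv_rhs => rw [← prod_sdiff (inter_subset_right : G ∩ G' ⊆ G')]
      rw [sdiff_inter_self_right]
    rw [hgcd] at this
    exact (Nat.div_eq_of_eq_mul_left hgcd0 this.symm).symm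
  have hEe : ∏ p ∈ E, p = ee g g' := by
    rw [hE, prod_union hdisj, h1, h2]
    rfl
  have hEP : ∀ p ∈ E, p.Prime := by
    intro p hp
    rcases mem_union.1 hp with h | h
    · exact hgP p (mem_sdiff.1 h).1
    · exact hgP' p (mem_sdiff.1 h).1
  have hom : om (ee g g') = E.card := by
    unfold om
    rw [← hEe, Nat.primeFactors_prod hEP]
  have hUP : ∀ p ∈ G ∪ G', p.Prime := fun p hp => (mem_union.1 hp).elim (hgP p) (hgP' p)
  have hUnion : G ∪ G' = E ∪ (G ∩ G') := by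
    ext p
    simp only [hE, mem_union, mem_sdiff, mem_inter]
    tauto
  have hdisj2 : Disjoint E (G ∩ G') := by
    rw [disjoint_left]
    intro p hp hp'
    simp only [hE, mem_union, mem_sdiff, mem_inter] at hp hp'
    tauto
  set ψ : ℕ → ℕ → ℕ → ℤ := fun p x y => (if p ∈ G then jacobiSym (Df m x y) p else 1) * (if p ∈ G' then jacobiSym (Df m x y) p else 1) with hψ
  have hper : ∀ p ∈ G ∪ G', ∀ x y x' y' : ℕ, x ≡ x' [MOD p] → y ≡ y' [MOD p] → ψ p x y = ψ p x' y' := by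
    intro p _ x y x' y' hx hy
    simp only [hψ]
    rw [FUL_df m p x y x' y' hx hy]
  have hsum : ∑ x ∈ range (g.lcm g'), ∑ y ∈ range (g.lcm g'), jacobiSym (Df m x y) g * jacobiSym (Df m x y) g' =
      ∏ p ∈ G ∪ G', ∑ x ∈ range p, ∑ y ∈ range p, ψ p x y := by
    rw [← FUL_prod hCR2 ψ (G ∪ G') hUP hper, hunion]
    refine sum_congr rfl fun x _ => sum_congr rfl fun y _ => ?_
    simp only [hψ]
    rw [prod_mul_distrib, prod_ite_mem, prod_ite_mem, union_inter_cancel_left, union_inter_cancel_right, ← FUL_jac _ G hgP, ← FUL_jac _ G' hgP',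
      hgprod, hgprod']
  have hnd : ∀ p ∈ G ∪ G', ¬ p ∣ 2 * q := by
    intro p hp hd
    have hpP := hUP p hp
    rcases mem_union.1 hp with h | h
    · have h3 := Nat.dvd_gcd (Nat.dvd_of_mem_primeFactors h) hd
      rw [hgq] at h3
      exact hpP.one_lt.ne' (Nat.dvd_one.1 h3)
    · have h3 := Nat.dvd_gcd (Nat.dvd_of_mem_primeFactors h) hd
      rw [hgq'] at h3
      exact hpP.one_lt.ne' (Nat.dvd_one.1 h3)
  have hb1 : ∀ p ∈ E, |((∑ x ∈ range p, ∑ y ∈ range p, ψ p x y : ℤ) : ℝ)| ≤ 2 * p * √(p : ℝ) := by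
    intro p hp
    have hpU : p ∈ G ∪ G' := by rw [hUnion]; exact mem_union_left _ hp
    have hψp : ∀ x y, ψ p x y = jacobiSym (Df m x y) p := by
      intro x y
      simp only [hψ]
      rcases mem_union.1 hp with h | h
      · rw [if_pos (mem_sdiff.1 h).1, if_neg (mem_sdiff.1 h).2, mul_one]
      · rw [if_neg (mem_sdiff.1 h).2, if_pos (mem_sdiff.1 h).1, one_mul]
    simp only [hψp]
    refine hQRT p m (hEP p hp) ?_ ?_
    · by_contra h
      exact hnd p hpU (hD.small p (hEP p hp) (by omega))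
    · intro h
      exact hnd p hpU (hD.bad p (hEP p hp) h)
  have hb2 : ∀ p ∈ G ∩ G', |((∑ x ∈ range p, ∑ y ∈ range p, ψ p x y : ℤ) : ℝ)| ≤ (p : ℝ) ^ 2 := by
    intro p _
    have h3 : |∑ x ∈ range p, ∑ y ∈ range p, ψ p x y| ≤ (p : ℤ) ^ 2 := by
      refine (abs_sum_le_sum_abs _ _).trans ?_
      have : ∀ x ∈ range p, |∑ y ∈ range p, ψ p x y| ≤ (p : ℤ) := by
        intro x _
        refine (abs_sum_le_sum_abs _ _).trans ?_
        refine (sum_le_card_nsmul (range p) _ 1 fun y _ => ?_).trans (by simp)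
        simp only [hψ]
        rw [abs_mul]
        refine mul_le_one₀ ?_ (abs_nonneg _) ?_
        · split_ifs
          · exact FUL_abs _ _
          · norm_num
        · split_ifs
          · exact FUL_abs _ _
          · norm_num
      refine (sum_le_card_nsmul (range p) _ (p : ℤ) this).trans ?_
      rw [card_range, nsmul_eq_mul]
      exact le_of_eq (by ring)
    exact_mod_cast h3
  rw [hsum, Int.cast_prod, abs_prod, hUnion, prod_union hdisj2, hom]
  have hP1 : ∏ p ∈ E, |((∑ x ∈ range p, ∑ y ∈ range p, ψ p x y : ℤ) : ℝ)| ≤ 2 ^ E.card * ((ee g g' : ℕ) * √((ee g g' : ℕ) : ℝ)) := by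
    refine (prod_le_prod (fun p _ => abs_nonneg _) hb1).trans (le_of_eq ?_)
    rw [← hEe, FUL_sqrt, Nat.cast_prod, prod_mul_distrib, prod_mul_distrib, prod_const]
    ring
  have hP2 : ∏ p ∈ G ∩ G', |((∑ x ∈ range p, ∑ y ∈ range p, ψ p x y : ℤ) : ℝ)| ≤ ((g.gcd g' : ℕ) : ℝ) ^ 2 := by
    refine (prod_le_prod (fun p _ => abs_nonneg _) hb2).trans (le_of_eq ?_)
    rw [← hgcd, Nat.cast_prod, prod_pow]
  exact mul_le_mul hP1 hP2 (prod_nonneg fun p _ => abs_nonneg _) (by positivity)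

end Pool.Agent.SU
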